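import Pool.Agent.H6.OCM.NFVd

/-!
Theorem OC in codimension `c`, density form: if on an event most of the windows have small
weight, then the block of rows is nearly full on the event, given the cell and the context.
-/

set_option autoImplicit false

namespace Pool.OCM

open Finset Real
open Pool.Agent.H49.Ent Pool.Agent.H32.Dense Pool.STK Pool.KAF Pool.OC

/-- **Full blocks.** `R` is the law of the samples with the references, `w` the base sample, `τ`
the context of the reference, `M` the coordinates, `E` an event. If the windows of `K` rows have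
small weight on the event, the block of `h` rows is nearly full on the event. -/
theorem full_event (c : ℕ) (hc : 0 < c) (ε π₁ D : ℝ) (hε : 0 < ε) (hπ : 0 < π₁) (hD : 0 ≤ D)
    (K : ℕ) (hK : 8 * (D + Real.log 2) ≤ ε * (K * (c * Real.log 2))) :
    ∃ h₀ : ℕ, K ≤ h₀ ∧ ∀ h : ℕ, h₀ ≤ h → ∀ k : ℕ, 16 * (k : ℝ) ≤ ε * h →
      ∀ (Ω θ : Type) [Fintype Ω] (R : Ω → ℝ) (N : Ω → Fin c → ℤ) (τ : Ω → θ)
        (M : θ → Fin c → Fin c → ℝ) (X a : ℕ) (E : Set Ω), IsLaw R →
      (∀ v, 0 < R v → ZOK k (M (τ v))) → π₁ ≤ Pr R E →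
      ∑ j ∈ range (h - K), ∑ v, (open Classical in if v ∈ E then R v else 0) *
        wtz R (fun v => nz (M (τ v)) (N v)) τ X (a + j) K D v ≤ ε / 8 * Pr R E * h →
      (1 - ε) * (c * (h * Real.log 2)) ≤
        CH (cond R (fun v => v ∈ E) True) (rc N a) (fun v => (rc N (a + h) v, τ v)) := by
  classical
  have hl2 : 0 < Real.log 2 := Real.log_pos (by norm_num)
  have hcr : (0 : ℝ) < c := by exact_mod_cast hc
  set l : ℝ := c * Real.log 2 with hl
  have hl0 : 0 < l := by positivity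
  have hKpos : (0 : ℝ) < K * l := by
    by_contra hcon
    have : ε * (K * l) ≤ 0 := mul_nonpos_of_nonneg_of_nonpos hε.le (not_lt.1 hcon)
    linarith
  have hK1 : (0 : ℝ) < K := by
    rcases (Nat.cast_nonneg (α := ℝ) K).eq_or_lt with h | h
    · rw [← h, zero_mul] at hKpos
      exact absurd hKpos (lt_irrefl _)
    · exact h
  set e : ℝ := (π₁ * ε ^ 2 / 64) ^ 2 with he
  have he0 : 0 < e := by positivity
  obtain ⟨h₁, hh₁⟩ := exists_nat_ge (8 * (K + K * Real.log 2 / (e * π₁) +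
    2 * Real.log (4 * c + 5) / Real.log 2) / ε)
  refine ⟨max h₁ (K + 1), (Nat.le_succ K).trans (le_max_right _ _), ?_⟩
  intro h hh k hk Ω θ _ R N τ M X a E hR hM hE hw
  have hKh' : K + 1 ≤ h := (le_max_right h₁ _).trans hh
  have hKh : K ≤ h := by omega
  have hn : h - K + K = h := Nat.sub_add_cancel hKh
  have hh₂ : 8 * (K + K * Real.log 2 / (e * π₁) +
    2 * Real.log (4 * c + 5) / Real.log 2) / ε ≤ (h : ℝ) :=
    hh₁.trans (by exact_mod_cast (le_max_left h₁ _).trans hh)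
  rw [div_le_iff₀ hε] at hh₂
  have hhpos : (0 : ℝ) < h := by
    have : 0 < h := by omega
    exact_mod_cast this
  have hcast : ((h - K : ℕ) : ℝ) = (h : ℝ) - K := by
    rw [Nat.cast_sub hKh]
  have hP0 : 0 < Pr R E := lt_of_lt_of_le hπ hE
  set P : ℝ := Pr R E with hP
  have hRE : law R (fun ω => ω ∈ E) True = P := rfl
  set q : Ω → ℝ := cond R (fun ω => ω ∈ E) True with hq
  have hqL : IsLaw q := ⟨fun v => cond_nonneg hR.nonneg _ _ v, sum_cond R _ (by
    rw [hRE]; exact hP0.ne')⟩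
  have hqR : ∀ v, 0 < q v → 0 < R v := fun v hv => ((cond_pos_iff hR.nonneg _ _ v).1 hv).1
  set B : ℝ := CH q (rc N a) (fun v => (rc N (a + h) v, τ v)) with hB
  set Z : Ω → Fin c → ℤ := fun v => nz (M (τ v)) (N v) with hZ
  have hsq : Real.sqrt e = π₁ * ε ^ 2 / 64 := by
    rw [he, Real.sqrt_sq (by positivity)]
  have hse : 2 * Real.sqrt e / (ε / 4) = π₁ * ε / 8 := by
    rw [hsq]
    field_simp
    ring
  have hzc : 2 * zcost c k ≤ 2 * (c * (Real.log (4 * c + 5) + k * Real.log 2)) := by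
    linarith [zcost_le c k]
  -- one shift
  have hone : ∀ u : Fin c → Fin (2 ^ X), P * ((h - K) * (K * l)) ≤
      P * (K * (B + 2 * zcost c k) + (h - K) * (D + Real.log 2 + ε / 4 / 2 * (K * l))) +
      K * l * (∑ j ∈ range (h - K),
        Pr R (E ∩ {ω | rowG R (rc (sh Z u)) (a + j) K τ ω ≤ K * l - D}) +
        (K * Real.log 2 / e + (h - K) * (π₁ * ε / 8))) := by
    intro u
    have h1 := CH_block_z hqL N τ M k (fun v hv => hM v (hqR v hv)) u a (a + h)
    have h2 := main_seq hR (rc (sh Z u)) (fun κ κ' h => det_rc R _ h) τ E hP0 a (h - K) K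
      (cellV K) (fun κ ω _ => mem_cellV _ κ K ω) ((2 ^ K) ^ c) (fun s => (cellV_card K s).le)
      (K * l) (log_cellV K) hKpos.le D (B + 2 * zcost c k) (ε / 4) e (by positivity) he0 hD (by
        rw [show a + (h - K) + K = a + h by omega]
        exact h1)
    rw [hse, hcast] at h2
    exact h2
  -- the average over the shifts
  have hcardJ : ((Fintype.card (Fin c → Fin (2 ^ X)) : ℕ) : ℝ) = (2 : ℝ) ^ (c * X) := by
    rw [Fintype.card_fun, Fintype.card_fin, Fintype.card_fin]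
    push_cast
    rw [← pow_mul, mul_comm]
  set J : ℝ := (2 : ℝ) ^ (c * X) with hJ
  have hJ0 : 0 < J := by positivity
  set S : ℝ := ∑ j ∈ range (h - K), ∑ v, (if v ∈ E then R v else 0) * wtz R Z τ X (a + j) K D v
    with hS
  have hsum := Finset.sum_le_sum fun u (_ : u ∈ (univ : Finset (Fin c → Fin (2 ^ X)))) => hone u
  rw [sum_const, nsmul_eq_mul, Finset.card_univ, hcardJ] at hsum
  have h4 : ∑ u : Fin c → Fin (2 ^ X), ∑ j ∈ range (h - K),
      Pr R (E ∩ {ω | rowG R (rc (sh Z u)) (a + j) K τ ω ≤ K * l - D}) = J * S := by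
    rw [Finset.sum_comm, hS, Finset.mul_sum]
    refine Finset.sum_congr rfl fun j _ => ?_
    have h5 : ∀ u : Fin c → Fin (2 ^ X), Pr R (E ∩ {ω | rowG R (rc (sh Z u)) (a + j) K τ ω ≤
        K * l - D}) = ∑ ω, (if ω ∈ E then R ω else 0) *
          (if rowG R (rc (sh Z u)) (a + j) K τ ω ≤ K * l - D then (1 : ℝ) else 0) := by
      intro u
      rw [Pool.KAF.Pr_eq]
      refine Finset.sum_congr rfl fun ω _ => ?_
      by_cases c1 : ω ∈ E <;> by_cases c2 : rowG R (rc (sh Z u)) (a + j) K τ ω ≤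
        K * l - D <;> simp [c1, c2]
    rw [Finset.sum_congr rfl fun u _ => h5 u, Finset.sum_comm, Finset.mul_sum]
    refine Finset.sum_congr rfl fun ω _ => ?_
    rw [← Finset.mul_sum, wtz_eq, ← hl]
    unfold wtF
    rw [hcardJ]
    set G : ℝ := if ω ∈ E then R ω else 0
    rw [show J * (G * ((∑ u : Fin c → Fin (2 ^ X),
      if rowG R (rc (sh Z u)) (a + j) K τ ω ≤ K * l - D then (1 : ℝ) else 0) / J)) =
      G * (J * ((∑ u : Fin c → Fin (2 ^ X),
      if rowG R (rc (sh Z u)) (a + j) K τ ω ≤ K * l - D then (1 : ℝ) else 0) / J)) by ring,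
      mul_div_cancel₀ _ hJ0.ne']
  have h6 : ∀ (A C : ℝ) (s : (Fin c → Fin (2 ^ X)) → ℝ), ∑ u, s u = J * S →
      ∑ u, (A + K * l * (s u + C)) = J * (A + K * l * (S + C)) := by
    intro A C s hs
    rw [Finset.sum_add_distrib, ← Finset.mul_sum, Finset.sum_add_distrib, hs, sum_const, sum_const,
      Finset.card_univ, nsmul_eq_mul, nsmul_eq_mul, hcardJ]
    ring
  rw [h6 _ _ _ h4] at hsum
  have h7 := le_of_mul_le_mul_left hsum hJ0
  have hS2 : S ≤ ε / 8 * P * h := hw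
  have hKhr : (K : ℝ) ≤ h := by exact_mod_cast hKh
  have hnn : (0 : ℝ) ≤ (h : ℝ) - K := by linarith
  -- the terms
  have t1 : P * ((h - K) * (D + Real.log 2 + ε / 4 / 2 * (K * l))) ≤
      K * l * (P * (ε / 4 * h)) := by
    have e1 : D + Real.log 2 + ε / 4 / 2 * (K * l) ≤ ε / 4 * (K * l) := by linarith
    have e2 : ((h : ℝ) - K) * (D + Real.log 2 + ε / 4 / 2 * (K * l)) ≤ h * (ε / 4 * (K * l)) :=
      mul_le_mul (by linarith) e1 (by positivity) hhpos.le
    calc _ ≤ P * (h * (ε / 4 * (K * l))) := mul_le_mul_of_nonneg_left e2 hP0.le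
      _ = _ := by ring
  have t2 : (h - K) * (π₁ * ε / 8) ≤ P * (ε / 8 * h) := by
    have e1 : ((h : ℝ) - K) * (π₁ * ε / 8) ≤ h * (P * ε / 8) :=
      mul_le_mul (by linarith) (by gcongr) (by positivity) hhpos.le
    linarith
  have t3 : K * Real.log 2 / e ≤ P * (K * Real.log 2 / (e * π₁)) := by
    have e1 : K * Real.log 2 / e = π₁ * (K * Real.log 2 / (e * π₁)) := by field_simp
    rw [e1]
    exact mul_le_mul_of_nonneg_right hE (by positivity)
  have t4 : K * l * (S + (K * Real.log 2 / e + (h - K) * (π₁ * ε / 8))) ≤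
      K * l * (P * (ε / 4 * h + K * Real.log 2 / (e * π₁))) := by
    refine mul_le_mul_of_nonneg_left ?_ hKpos.le
    have : P * (ε / 4 * h + K * Real.log 2 / (e * π₁)) =
      ε / 8 * P * h + (P * (K * Real.log 2 / (e * π₁)) + P * (ε / 8 * h)) := by ring
    rw [this]
    linarith
  have h8 : P * (K * (((h : ℝ) - K) * l)) ≤ P * (K * (B + 2 * zcost c k + l * (ε / 2 * h +
      K * Real.log 2 / (e * π₁)))) := by
    calc P * (K * (((h : ℝ) - K) * l)) = P * ((h - K) * (K * l)) := by ring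
      _ ≤ _ := h7
      _ = P * (K * (B + 2 * zcost c k)) +
          P * ((h - K) * (D + Real.log 2 + ε / 4 / 2 * (K * l))) + K * l * (S +
          (K * Real.log 2 / e + (h - K) * (π₁ * ε / 8))) := by ring
      _ ≤ P * (K * (B + 2 * zcost c k)) + K * l * (P * (ε / 4 * h)) +
          K * l * (P * (ε / 4 * h + K * Real.log 2 / (e * π₁))) := by linarith
      _ = _ := by ring
  have h9 := le_of_mul_le_mul_left (le_of_mul_le_mul_left h8 hP0) hK1
  have t5 : 2 * zcost c k ≤ l * (2 * Real.log (4 * c + 5) / Real.log 2 + ε / 8 * h) := by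
    have e1 : l * (2 * Real.log (4 * c + 5) / Real.log 2 + 2 * k) =
        2 * (c * (Real.log (4 * c + 5) + k * Real.log 2)) := by
      rw [hl]
      field_simp
    have e2 : l * (2 * Real.log (4 * c + 5) / Real.log 2 + 2 * k) ≤
        l * (2 * Real.log (4 * c + 5) / Real.log 2 + ε / 8 * h) :=
      mul_le_mul_of_nonneg_left (by linarith) hl0.le
    linarith
  have t6 : l * (K + K * Real.log 2 / (e * π₁) + 2 * Real.log (4 * c + 5) / Real.log 2) ≤
      l * (ε / 8 * h) := mul_le_mul_of_nonneg_left (by linarith) hl0.le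
  have t7 : 0 ≤ l * (ε * h) := by positivity
  calc (1 - ε) * (c * (h * Real.log 2)) = (h : ℝ) * l - l * (ε * h) := by rw [hl]; ring
    _ ≤ B := by linarith

/-- The probability of the preimage. -/
theorem Pr_pre {Ω Om : Type} [Fintype Ω] [Fintype Om] {R : Ω → ℝ} {P : Om → ℝ} {w : Ω → Om}
    (hRP : ∀ ω, law R w ω = P ω) (E : Set Om) : Pr R (w ⁻¹' E) = Pr P E := by
  classical
  rw [Pool.KAF.Pr_eq, Pool.KAF.Pr_eq]
  have h1 : ∀ ω, (if ω ∈ E then P ω else 0) = ∑ v, if w v = ω then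
      (if w v ∈ E then R v else 0) else 0 := by
    intro ω
    rw [← hRP]
    unfold law
    split_ifs with h2
    · refine Finset.sum_congr rfl fun v _ => ?_
      split_ifs with h3 h4
      · rfl
      · exact absurd (h3 ▸ h2) h4
      · rfl
    · symm
      refine Finset.sum_eq_zero fun v _ => ?_
      split_ifs with h3 h4
      · exact absurd (h3 ▸ h4) h2
      · rfl
      · rfl
  rw [Finset.sum_congr rfl fun ω _ => h1 ω, Finset.sum_comm]
  refine Finset.sum_congr rfl fun v _ => ?_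
  rw [Finset.sum_ite_eq]
  simp only [Finset.mem_univ, if_true, Set.mem_preimage]

/-- **Full blocks of the base sample.** -/
theorem full_block (c : ℕ) (hc : 0 < c) (ε π₁ D : ℝ) (hε : 0 < ε) (hπ : 0 < π₁) (hD : 0 ≤ D)
    (K : ℕ) (hK : 8 * (D + Real.log 2) ≤ ε * (K * (c * Real.log 2))) :
    ∃ h₀ : ℕ, K ≤ h₀ ∧ ∀ h : ℕ, h₀ ≤ h → ∀ k : ℕ, 16 * (k : ℝ) ≤ ε * h →
      ∀ (Ω Om θ θ' : Type) [Fintype Ω] [Fintype Om] (R : Ω → ℝ) (w : Ω → Om) (P : Om → ℝ)
        (N : Om → Fin c → ℤ) (T : Om → θ') (τ : Ω → θ) (M : θ → Fin c → Fin c → ℝ) (X a : ℕ)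
        (E : Set Om),
      IsLaw R → (∀ ω, law R w ω = P ω) → Det R τ (fun v => T (w v)) →
      (∀ v, 0 < R v → ZOK k (M (τ v))) → π₁ ≤ Pr P E →
      ∑ j ∈ range (h - K), ∑ v, (open Classical in if w v ∈ E then R v else 0) *
        wtz R (fun v => nz (M (τ v)) (N (w v))) τ X (a + j) K D v ≤ ε / 8 * Pr P E * h →
      (1 - ε) * (c * (h * Real.log 2)) ≤
        CH (cond P (fun ω => ω ∈ E) True) (rc N a) (fun ω => (rc N (a + h) ω, T ω)) := by
  classical
  obtain ⟨h₀, hK₀, hmain⟩ := full_event c hc ε π₁ D hε hπ hD K hK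
  refine ⟨h₀, hK₀, ?_⟩
  intro h hh k hk Ω Om θ θ' _ _ R w P N T τ M X a E hR hRP hτ hM hE hw
  have hPr : Pr R (w ⁻¹' E) = Pr P E := Pr_pre hRP E
  have h1 := hmain h hh k hk Ω θ R (fun v => N (w v)) τ M X a (w ⁻¹' E) hR hM (by rw [hPr]; exact hE)
    (by rw [hPr]; exact hw)
  have hP0 : 0 < Pr R (w ⁻¹' E) := by rw [hPr]; exact lt_of_lt_of_le hπ hE
  have hRE : law R (fun v => v ∈ w ⁻¹' E) True = Pr R (w ⁻¹' E) := rfl
  have hPE : law P (fun ω => ω ∈ E) True = Pr P E := rfl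
  set q : Ω → ℝ := cond R (fun v => v ∈ w ⁻¹' E) True with hq
  have hqL : IsLaw q := ⟨fun v => cond_nonneg hR.nonneg _ _ v, sum_cond R _ (by
    rw [hRE]; exact hP0.ne')⟩
  have hqR : ∀ v, 0 < q v → 0 < R v := fun v hv => ((cond_pos_iff hR.nonneg _ _ v).1 hv).1
  have h2 : CH q (rc (fun v => N (w v)) a) (fun v => (rc (fun v => N (w v)) (a + h) v, τ v)) ≤
      CH q (rc (fun v => N (w v)) a) (fun v => (rc (fun v => N (w v)) (a + h) v, T (w v))) := by
    refine CH_mono_cond hqL.nonneg ?_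
    intro v v' hv hv' h3
    simp only [Prod.mk.injEq] at h3 ⊢
    exact ⟨h3.1, hτ v v' (hqR v hv) (hqR v' hv') h3.2⟩
  have h3 : CH q (rc (fun v => N (w v)) a)
      (fun v => (rc (fun v => N (w v)) (a + h) v, T (w v))) =
      CH (cond P (fun ω => ω ∈ E) True) (rc N a) (fun ω => (rc N (a + h) ω, T ω)) := by
    refine RS.CH_push (w := w) (fun ω => ?_) (rc N a) (fun ω => (rc N (a + h) ω, T ω))
    have e1 : ∀ v, (if w v = ω then q v else 0) =
        if ω ∈ E then (if w v = ω then R v else 0) / Pr P E else 0 := by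
      intro v
      by_cases c1 : w v = ω
      · rw [if_pos c1, if_pos c1, hq]
        unfold Pool.Agent.H49.Ent.cond
        rw [hRE, hPr]
        by_cases c2 : ω ∈ E
        · have c3 : v ∈ w ⁻¹' E := by rw [Set.mem_preimage, c1]; exact c2
          rw [if_pos c2, if_pos (by simp [c3])]
        · have c3 : v ∉ w ⁻¹' E := by rw [Set.mem_preimage, c1]; exact c2
          rw [if_neg c2, if_neg (by simp [c3])]
      · rw [if_neg c1, if_neg c1, zero_div, ite_self]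
    have e2 : law q w ω = ∑ v, if w v = ω then q v else 0 := rfl
    rw [e2, Finset.sum_congr rfl fun v _ => e1 v]
    unfold Pool.Agent.H49.Ent.cond
    rw [hPE]
    by_cases c2 : ω ∈ E
    · rw [if_pos (by simp [c2])]
      simp only [if_pos c2]
      rw [← Finset.sum_div, ← hRP]
      rfl
    · rw [if_neg (by simp [c2])]
      simp only [if_neg c2, sum_const_zero]
  linarith

/-- The windows in terms of the rows. -/
theorem sum_row_win {c : ℕ} {Ω θ : Type} [Fintype Ω] (Q : Ω → ℝ) (hQ : IsLaw Q)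
    (Z : Ω → Fin c → ℤ) (x : Ω → θ) (X k K : ℕ) (D : ℝ) (E : Set Ω) (j₀ h : ℕ) (hj : j₀ + h ≤ X) :
    ∑ j ∈ range (h - K), ∑ v, (open Classical in if v ∈ E then Q v else 0) *
        wtz Q Z x X (X - (j₀ + h) + j) K D v ≤
      ∑ v, (open Classical in if v ∈ E then Q v else 0) *
        ∑ r ∈ Finset.Ico j₀ (j₀ + h), wtz Q Z x X (X + k + 1 - r) K D v + Pr Q E * (k + 2) := by
  classical
  rw [Finset.sum_comm, Pool.KAF.Pr_eq, Finset.sum_mul, ← Finset.sum_add_distrib]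
  refine Finset.sum_le_sum fun v _ => ?_
  rw [← Finset.mul_sum, ← mul_add]
  refine mul_le_mul_of_nonneg_left ?_ (by split_ifs <;> simp [hQ.nonneg v])
  set wt : ℕ → ℝ := fun lev => wtz Q Z x X lev K D v with hwt
  have hwt0 : ∀ l, 0 ≤ wt l := fun l => wtz_nonneg ..
  have hwt1 : ∀ l, wt l ≤ 1 := fun l => wtz_le_one ..
  set a : ℕ := X - (j₀ + h) with ha
  have e1 : ∑ r ∈ Finset.Ico j₀ (j₀ + h), wt (X + k + 1 - r) =
      ∑ i ∈ range h, wt (a + (k + 2 + i)) := by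
    rw [Finset.sum_Ico_eq_sum_range, ← Finset.sum_range_reflect]
    rw [show j₀ + h - j₀ = h by omega]
    refine Finset.sum_congr rfl fun i hi => ?_
    rw [mem_range] at hi
    rw [show X + k + 1 - (j₀ + (h - 1 - i)) = a + (k + 2 + i) by omega]
  have f1 : ∑ i ∈ range (h - K), wt (a + i) ≤ ∑ i ∈ range (k + 2 + h), wt (a + i) :=
    Finset.sum_le_sum_of_subset_of_nonneg
      (fun i hi => by rw [mem_range] at hi ⊢; omega) (fun i _ _ => hwt0 _)
  rw [Finset.sum_range_add] at f1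
  have f2 : ∑ i ∈ range (k + 2), wt (a + i) ≤ k + 2 := by
    calc _ ≤ ∑ _i ∈ range (k + 2), (1 : ℝ) := Finset.sum_le_sum fun i _ => hwt1 _
      _ = k + 2 := by rw [sum_const, card_range, nsmul_eq_mul, mul_one]; push_cast; ring
  show ∑ i ∈ range (h - K), wt (a + i) ≤
    ∑ r ∈ Finset.Ico j₀ (j₀ + h), wt (X + k + 1 - r) + (k + 2)
  linarith

/-- The rows and the cells. -/
theorem row_eq_rc {c : ℕ} (d : DatV c) (r : ℕ) : d.row r = rc d.N (d.X - r) := by
  funext ω i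
  unfold DatV.row rc
  push_cast
  rfl

/-- **Full blocks of rows**, event on the samples with the references. -/
theorem full_rowE (c : ℕ) (hc : 0 < c) (ε π₁ D : ℝ) (hε : 0 < ε) (hπ : 0 < π₁) (hD : 0 ≤ D)
    (K : ℕ) (hK : 8 * (D + Real.log 2) ≤ ε * (K * (c * Real.log 2))) (k : ℕ) :
    ∃ h₀ : ℕ, K ≤ h₀ ∧ ∀ h : ℕ, h₀ ≤ h → ∀ kmax : ℕ, 16 * (kmax : ℝ) ≤ ε * h →
      ∀ (d : DatV c) (j₀ : ℕ), j₀ + h ≤ d.X →
      ∀ (Ω ξ₁ : Type) [Fintype Ω] (Q : Ω → ℝ) (w₁ : Ω → d.Om) (x₁ : Ω → ξ₁)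
        (M : ξ₁ → Fin c → Fin c → ℝ) (E : Set Ω), IsLaw Q →
      (∀ t, ZOK kmax (M t)) → π₁ ≤ Pr Q E →
      ∑ v, (open Classical in if v ∈ E then Q v else 0) *
        ∑ r ∈ Finset.Ico j₀ (j₀ + h), wtz Q (fun v => nz (M (x₁ v)) (d.N (w₁ v))) x₁ d.X
          (d.X + k + 1 - r) K D v ≤ ε / 16 * Pr Q E * h →
      (1 - ε) * (c * (h * Real.log 2)) ≤
        CH (cond Q (fun v => v ∈ E) True) (fun v => d.row (j₀ + h) (w₁ v))
          (fun v => (d.row j₀ (w₁ v), x₁ v)) := by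
  classical
  obtain ⟨h₁, hK₁, hmain⟩ := full_event c hc ε π₁ D hε hπ hD K hK
  obtain ⟨h₂, hh₂⟩ := exists_nat_ge (16 * ((k : ℝ) + 2) / ε)
  refine ⟨max h₁ h₂, hK₁.trans (le_max_left _ _), ?_⟩
  intro h hh kmax hk d j₀ hj Ω ξ₁ _ Q w₁ x₁ M E hQ hM hE hw
  have hh3 : 16 * ((k : ℝ) + 2) / ε ≤ h := hh₂.trans (by exact_mod_cast (le_max_right _ _).trans hh)
  rw [div_le_iff₀ hε] at hh3
  have hP0 : 0 < Pr Q E := lt_of_lt_of_le hπ hE
  have h1 := hmain h ((le_max_left _ _).trans hh) kmax hk Ω ξ₁ Q (fun v => d.N (w₁ v)) x₁ M d.X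
    (d.X - (j₀ + h)) E hQ (fun v _ => hM _) hE (by
      refine (sum_row_win Q hQ _ x₁ d.X k K D E j₀ h hj).trans ?_
      have h2 : Pr Q E * ((k : ℝ) + 2) ≤ ε / 16 * Pr Q E * h := by
        have : Pr Q E * ((k : ℝ) + 2) ≤ Pr Q E * (ε / 16 * h) :=
          mul_le_mul_of_nonneg_left (by linarith) hP0.le
        linarith
      linarith)
  have e1 : d.X - (j₀ + h) + h = d.X - j₀ := by omega
  rw [e1] at h1
  rw [row_eq_rc, row_eq_rc]
  exact h1

/-- **Full blocks of rows**, event on the samples. -/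
theorem full_row (c : ℕ) (hc : 0 < c) (ε π₁ D : ℝ) (hε : 0 < ε) (hπ : 0 < π₁) (hD : 0 ≤ D)
    (K : ℕ) (hK : 8 * (D + Real.log 2) ≤ ε * (K * (c * Real.log 2))) (k : ℕ) :
    ∃ h₀ : ℕ, K ≤ h₀ ∧ ∀ h : ℕ, h₀ ≤ h → ∀ kmax : ℕ, 16 * (kmax : ℝ) ≤ ε * h →
      ∀ (d : DatV c) (j₀ : ℕ), j₀ + h ≤ d.X →
      ∀ (Ω ξ₁ : Type) [Fintype Ω] (Q : Ω → ℝ) (w₁ : Ω → d.Om) (x₁ : Ω → ξ₁)
        (M : ξ₁ → Fin c → Fin c → ℝ) (E : Set d.Om), IsLaw Q →
      (∀ ω, law Q w₁ ω = d.P ω) → Det Q x₁ (fun v => d.T (w₁ v)) →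
      (∀ t, ZOK kmax (M t)) → π₁ ≤ Pr d.P E →
      ∑ v, (open Classical in if w₁ v ∈ E then Q v else 0) *
        ∑ r ∈ Finset.Ico j₀ (j₀ + h), wtz Q (fun v => nz (M (x₁ v)) (d.N (w₁ v))) x₁ d.X
          (d.X + k + 1 - r) K D v ≤ ε / 16 * Pr d.P E * h →
      (1 - ε) * (c * (h * Real.log 2)) ≤
        CH (cond d.P (fun ω => ω ∈ E) True) (d.row (j₀ + h)) (fun ω => (d.row j₀ ω, d.T ω)) := by
  classical
  obtain ⟨h₁, hK₁, hmain⟩ := full_block c hc ε π₁ D hε hπ hD K hK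
  obtain ⟨h₂, hh₂⟩ := exists_nat_ge (16 * ((k : ℝ) + 2) / ε)
  refine ⟨max h₁ h₂, hK₁.trans (le_max_left _ _), ?_⟩
  intro h hh kmax hk d j₀ hj Ω ξ₁ _ Q w₁ x₁ M E hQ hQw hdet hM hE hw
  have hh3 : 16 * ((k : ℝ) + 2) / ε ≤ h := hh₂.trans (by exact_mod_cast (le_max_right _ _).trans hh)
  rw [div_le_iff₀ hε] at hh3
  have hP0 : 0 < Pr d.P E := lt_of_lt_of_le hπ hE
  have h1 := hmain h ((le_max_left _ _).trans hh) kmax hk Ω d.Om ξ₁ d.Tau Q w₁ d.P d.N d.T x₁ M d.X
    (d.X - (j₀ + h)) E hQ hQw hdet (fun v _ => hM _) hE (by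
      have h3 := sum_row_win Q hQ (fun v => nz (M (x₁ v)) (d.N (w₁ v))) x₁ d.X k K D (w₁ ⁻¹' E)
        j₀ h hj
      rw [Pr_pre hQw] at h3
      refine h3.trans ?_
      have h2 : Pr d.P E * ((k : ℝ) + 2) ≤ ε / 16 * Pr d.P E * h := by
        have : Pr d.P E * ((k : ℝ) + 2) ≤ Pr d.P E * (ε / 16 * h) :=
          mul_le_mul_of_nonneg_left (by linarith) hP0.le
        linarith
      have h4 : ∑ v, (if v ∈ w₁ ⁻¹' E then Q v else 0) *
        ∑ r ∈ Finset.Ico j₀ (j₀ + h), wtz Q (fun v => nz (M (x₁ v)) (d.N (w₁ v))) x₁ d.X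
          (d.X + k + 1 - r) K D v ≤ ε / 16 * Pr d.P E * h := hw
      linarith)
  have e1 : d.X - (j₀ + h) + h = d.X - j₀ := by omega
  rw [e1] at h1
  rw [row_eq_rc, row_eq_rc]
  exact h1

end Pool.OCM
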