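import Pool.Agent.H66.OCM.Geo
import Pool.Agent.H73.KAF.RST

/-!
Theorem OC in codimension `c`: the basis lemma. Random references, fine or coarse, form with
positive probability a basis in which almost all fine samples have bounded coordinates.
-/

set_option autoImplicit false

namespace Pool.OCM.Bas

open Finset Real Pool.OCM
open Pool.Agent.H32.Dense Pool.STK Pool.KAF

/-! ### Sequential choice -/

/-- Extension of a finite sequence. -/
noncomputable def ext {T : Type} [Nonempty T] {n : ℕ} (ω : Fin n → T) (i : ℕ) : T :=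
  if h : i < n then ω ⟨i, h⟩ else Classical.arbitrary T

theorem ext_lt {T : Type} [Nonempty T] {n : ℕ} (ω : Fin n → T) {i : ℕ} (h : i < n) :
    ext ω i = ω ⟨i, h⟩ := dif_pos h

theorem ext_coe {T : Type} [Nonempty T] {n : ℕ} (ω : Fin n → T) (i : Fin n) :
    ext ω (i : ℕ) = ω i := dif_pos i.2

open Classical in
theorem seq_choice {T : Type} [Fintype T] [Nonempty T] {pr : T → ℝ} (hpr : IsLaw pr) {q : ℝ}
    (hq : 0 ≤ q) (A : ℕ → (ℕ → T) → Set T)
    (hloc : ∀ j h h', (∀ i < j, h i = h' i) → A j h = A j h') : ∀ n : ℕ,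
    (∀ j < n, ∀ h, q ≤ Pr pr (A j h)) →
    q ^ n ≤ ∑ ω : Fin n → T, (∏ i, pr (ω i)) *
      (if ∀ j : Fin n, ω j ∈ A j (ext ω) then (1 : ℝ) else 0) := by
  intro n
  induction n with
  | zero => intro _; simp
  | succ n ih =>
    intro hA
    have h1 := ih fun j hj h => hA j (by omega) h
    have h2 : ∑ ω : Fin (n + 1) → T, (∏ i, pr (ω i)) *
        (if ∀ j : Fin (n + 1), ω j ∈ A j (ext ω) then (1 : ℝ) else 0) =
        ∑ ω : Fin n → T, ∑ t : T, ((∏ i, pr (ω i)) *
          (if ∀ j : Fin n, ω j ∈ A j (ext ω) then (1 : ℝ) else 0)) *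
            (if t ∈ A n (ext ω) then pr t else 0) := by
      rw [← (Fin.snocEquiv (fun _ => T)).sum_comp, Fintype.sum_prod_type, Finset.sum_comm]
      refine Finset.sum_congr rfl fun ω _ => Finset.sum_congr rfl fun t _ => ?_
      have e0 : (Fin.snocEquiv (fun _ => T)) (t, ω) = Fin.snoc (α := fun _ => T) ω t := rfl
      rw [e0, Fin.prod_univ_castSucc]
      simp only [Fin.snoc_castSucc, Fin.snoc_last]
      have e1 : ∀ i < n, ext (Fin.snoc (α := fun _ => T) ω t) i = ext ω i := by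
        intro i hi
        rw [ext_lt _ (by omega : i < n + 1), ext_lt _ hi]
        have : (⟨i, by omega⟩ : Fin (n + 1)) = Fin.castSucc ⟨i, hi⟩ := rfl
        rw [this, Fin.snoc_castSucc]
      have e2 : (∀ j : Fin (n + 1), (Fin.snoc (α := fun _ => T) ω t) j ∈
          A j (ext (Fin.snoc (α := fun _ => T) ω t))) ↔
          (∀ j : Fin n, ω j ∈ A j (ext ω)) ∧ t ∈ A n (ext ω) := by
        rw [Fin.forall_fin_succ']
        simp only [Fin.snoc_castSucc, Fin.snoc_last, Fin.val_castSucc, Fin.val_last]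
        rw [hloc n _ (ext ω) e1]
        refine and_congr (forall_congr' fun j => ?_) Iff.rfl
        rw [hloc j _ (ext ω) fun i hi => e1 i (by omega)]
      by_cases c1 : ∀ j : Fin n, ω j ∈ A j (ext ω)
      · by_cases c2 : t ∈ A n (ext ω)
        · rw [if_pos (e2.2 ⟨c1, c2⟩), if_pos c1, if_pos c2]
          ring
        · rw [if_neg fun h => c2 (e2.1 h).2, if_neg c2]
          ring
      · rw [if_neg fun h => c1 (e2.1 h).1, if_neg c1]
        ring
    rw [h2, pow_succ]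
    calc q ^ n * q ≤ (∑ ω : Fin n → T, (∏ i, pr (ω i)) *
          (if ∀ j : Fin n, ω j ∈ A j (ext ω) then (1 : ℝ) else 0)) * q :=
          mul_le_mul_of_nonneg_right h1 hq
      _ = ∑ ω : Fin n → T, ((∏ i, pr (ω i)) *
          (if ∀ j : Fin n, ω j ∈ A j (ext ω) then (1 : ℝ) else 0)) * q := Finset.sum_mul _ _ _
      _ ≤ _ := by
          refine Finset.sum_le_sum fun ω _ => ?_
          rw [← Finset.mul_sum]
          refine mul_le_mul_of_nonneg_left ?_ ?_
          · have h3 := hA n (Nat.lt_succ_self n) (ext ω)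
            rwa [Pool.KAF.Pr_eq] at h3
          · refine mul_nonneg (Finset.prod_nonneg fun i _ => hpr.nonneg _) ?_
            split_ifs <;> norm_num

/-! ### Quantiles -/

theorem quant {S : Type} [Fintype S] {μ : S → ℝ} (hμ : IsLaw μ) (φ : S → ℝ) {δ : ℝ}
    (h0 : 0 < δ) (h1 : δ ≤ 1) :
    ∃ m : ℝ, δ ≤ Pr μ {s | m ≤ φ s} ∧ Pr μ {s | m < φ s} ≤ δ := by
  classical
  have hne : (univ : Finset S).Nonempty := by
    by_contra h
    rw [Finset.not_nonempty_iff_eq_empty] at h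
    have h2 := hμ.sum_one
    rw [h] at h2
    simp at h2
  set F : Finset ℝ := univ.image φ with hF
  have hFne : F.Nonempty := by rw [hF]; exact hne.image φ
  set Fg : Finset ℝ := F.filter fun m => δ ≤ Pr μ {s | m ≤ φ s} with hFg
  have hmin : F.min' hFne ∈ Fg := by
    refine Finset.mem_filter.2 ⟨Finset.min'_mem _ _, ?_⟩
    have h2 : Pr μ {s | F.min' hFne ≤ φ s} = 1 := by
      rw [Pool.KAF.Pr_eq, ← hμ.sum_one]
      refine Finset.sum_congr rfl fun s _ => if_pos ?_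
      exact Finset.min'_le F _ (Finset.mem_image_of_mem φ (mem_univ s))
    rw [h2]
    exact h1
  have hgne : Fg.Nonempty := ⟨_, hmin⟩
  set m : ℝ := Fg.max' hgne with hm
  have hmg : m ∈ F ∧ δ ≤ Pr μ {s | m ≤ φ s} := Finset.mem_filter.1 (Finset.max'_mem Fg hgne)
  refine ⟨m, hmg.2, ?_⟩
  by_contra hcon
  rw [not_le] at hcon
  set F2 : Finset ℝ := F.filter fun x => m < x with hF2
  have h2 : F2.Nonempty := by
    by_contra h
    rw [Finset.not_nonempty_iff_eq_empty] at h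
    have h3 : Pr μ {s | m < φ s} = 0 := by
      rw [Pool.KAF.Pr_eq]
      refine Finset.sum_eq_zero fun s _ => if_neg fun hs => ?_
      have h4 : φ s ∈ F2 := by
        rw [hF2, Finset.mem_filter]
        exact ⟨Finset.mem_image_of_mem _ (mem_univ s), hs⟩
      rw [h] at h4
      simp at h4
    linarith
  have h3 : F2.min' h2 ∈ F ∧ m < F2.min' h2 := Finset.mem_filter.1 (Finset.min'_mem F2 h2)
  have h4 : F2.min' h2 ∈ Fg := by
    refine Finset.mem_filter.2 ⟨h3.1, hcon.le.trans (Pr_mono hμ.nonneg fun s _ hs => ?_)⟩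
    exact Finset.min'_le _ _ (Finset.mem_filter.2 ⟨Finset.mem_image_of_mem _ (mem_univ s), hs⟩)
  have h5 := Finset.le_max' _ _ h4
  have h6 := h3.2
  linarith

open Classical in
/-- The quantile. -/
noncomputable def qt {S : Type} [Fintype S] (μ : S → ℝ) (φ : S → ℝ) (δ : ℝ) : ℝ :=
  if h : ∃ m : ℝ, δ ≤ Pr μ {s | m ≤ φ s} ∧ Pr μ {s | m < φ s} ≤ δ then h.choose else 0

theorem qt_spec {S : Type} [Fintype S] {μ : S → ℝ} (hμ : IsLaw μ) (φ : S → ℝ) {δ : ℝ}
    (h0 : 0 < δ) (h1 : δ ≤ 1) :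
    δ ≤ Pr μ {s | qt μ φ δ ≤ φ s} ∧ Pr μ {s | qt μ φ δ < φ s} ≤ δ := by
  have h := quant hμ φ h0 h1
  unfold qt
  rw [dif_pos h]
  exact h.choose_spec

theorem Pr_ex_le {S : Type} [Fintype S] {μ : S → ℝ} (hμ : ∀ s, 0 ≤ μ s) (B : ℕ → Set S) (n : ℕ) :
    Pr μ {s | ∃ i < n, s ∈ B i} ≤ ∑ i ∈ range n, Pr μ (B i) := by
  classical
  induction n with
  | zero =>
    refine le_of_eq ?_
    rw [Pool.KAF.Pr_eq]
    simp
  | succ n ih =>
    rw [Finset.sum_range_succ]
    have h1 : Pr μ {s | ∃ i < n + 1, s ∈ B i} ≤ Pr μ ({s | ∃ i < n, s ∈ B i} ∪ B n) := by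
      refine Pr_mono hμ fun s _ hs => ?_
      obtain ⟨i, hi, hs⟩ := hs
      rcases Nat.lt_succ_iff_lt_or_eq.1 hi with h | rfl
      · exact Or.inl ⟨i, h, hs⟩
      · exact Or.inr hs
    have h2 := Pr_union_le hμ {s | ∃ i < n, s ∈ B i} (B n)
    linarith

/-! ### The process -/

section

variable {c : ℕ} {S S' : Type} [Fintype S] [Fintype S']

/-- The quantile of the distances to a subspace. -/
noncomputable def qV (μ : S → ℝ) (f : S → Fin c → ℝ) (δ : ℕ → ℝ) (V : Submodule ℝ (Fin c → ℝ))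
    (j : ℕ) : ℝ := qt μ (fun s => dV V (f s)) (δ j)

open Classical in
/-- The state of the process. -/
noncomputable def st (μ : S → ℝ) (f : S → Fin c → ℝ) (g : S' → Fin c → ℝ) (τ δ : ℕ → ℝ)
    (ω : ℕ → S × S') : ℕ → Prop × Submodule ℝ (Fin c → ℝ)
  | 0 => (True, ⊥)
  | j + 1 => if (st μ f g τ δ ω j).1 ∧ τ j ≤ qV μ f δ (st μ f g τ δ ω j).2 j then
      (True, Submodule.span ℝ {f (ω j).1} ⊔ (st μ f g τ δ ω j).2)
    else (False, Submodule.span ℝ {g (ω j).2} ⊔ (st μ f g τ δ ω j).2)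

/-- The step is fine. -/
def Pf (μ : S → ℝ) (f : S → Fin c → ℝ) (g : S' → Fin c → ℝ) (τ δ : ℕ → ℝ)
    (ω : ℕ → S × S') (j : ℕ) : Prop :=
  (st μ f g τ δ ω j).1 ∧ τ j ≤ qV μ f δ (st μ f g τ δ ω j).2 j

variable (μ : S → ℝ) (f : S → Fin c → ℝ) (g : S' → Fin c → ℝ) (τ δ : ℕ → ℝ)

omit [Fintype S'] in
theorem st_pos {ω : ℕ → S × S'} {j : ℕ} (h : Pf μ f g τ δ ω j) :
    st μ f g τ δ ω (j + 1) =
      (True, Submodule.span ℝ {f (ω j).1} ⊔ (st μ f g τ δ ω j).2) := by
  rw [st]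
  exact if_pos h

omit [Fintype S'] in
theorem st_neg {ω : ℕ → S × S'} {j : ℕ} (h : ¬ Pf μ f g τ δ ω j) :
    st μ f g τ δ ω (j + 1) =
      (False, Submodule.span ℝ {g (ω j).2} ⊔ (st μ f g τ δ ω j).2) := by
  rw [st]
  exact if_neg h

omit [Fintype S'] in
theorem st_congr {ω ω' : ℕ → S × S'} : ∀ {j : ℕ}, (∀ i < j, ω i = ω' i) →
    st μ f g τ δ ω j = st μ f g τ δ ω' j := by
  intro j
  induction j with
  | zero => intro _; rfl
  | succ j ih =>
    intro h
    have h1 := ih fun i hi => h i (by omega)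
    have h2 := h j (Nat.lt_succ_self j)
    rw [st, st, h1, h2]

omit [Fintype S'] in
theorem st_finrank (ω : ℕ → S × S') (j : ℕ) :
    Module.finrank ℝ (st μ f g τ δ ω j).2 ≤ j := by
  have hs1 : ∀ v : Fin c → ℝ, Module.finrank ℝ (Submodule.span ℝ {v}) ≤ 1 := fun v => by
    classical
    simpa using finrank_span_le_card (R := ℝ) ({v} : Set (Fin c → ℝ))
  induction j with
  | zero =>
    have : (st μ f g τ δ ω 0).2 = ⊥ := rfl
    rw [this, finrank_bot]
  | succ j ih =>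
    by_cases h : Pf μ f g τ δ ω j
    · rw [st_pos μ f g τ δ h]
      refine (Submodule.finrank_add_le_finrank_add_finrank _ _).trans ?_
      have := hs1 (f (ω j).1)
      omega
    · rw [st_neg μ f g τ δ h]
      refine (Submodule.finrank_add_le_finrank_add_finrank _ _).trans ?_
      have := hs1 (g (ω j).2)
      omega

/-- The good choices. -/
def Ch (δ₀ : ℝ) (j : ℕ) (ω : ℕ → S × S') : Set (S × S') :=
  {t | (Pf μ f g τ δ ω j → qV μ f δ (st μ f g τ δ ω j).2 j ≤ dV (st μ f g τ δ ω j).2 (f t.1) ∧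
      ∀ i < j, dV (st μ f g τ δ ω i).2 (f t.1) ≤ qV μ f δ (st μ f g τ δ ω i).2 i) ∧
    (¬ Pf μ f g τ δ ω j → δ₀ ≤ dV (st μ f g τ δ ω j).2 (g t.2))}

omit [Fintype S'] in
theorem Ch_congr (δ₀ : ℝ) (j : ℕ) {ω ω' : ℕ → S × S'} (h : ∀ i < j, ω i = ω' i) :
    Ch μ f g τ δ δ₀ j ω = Ch μ f g τ δ δ₀ j ω' := by
  have h1 : ∀ i ≤ j, st μ f g τ δ ω i = st μ f g τ δ ω' i := fun i hi =>
    st_congr μ f g τ δ fun k hk => h k (by omega)
  ext t
  unfold Ch Pf
  simp only [Set.mem_ofPred_eq]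
  rw [h1 j le_rfl]
  refine and_congr (imp_congr Iff.rfl (and_congr Iff.rfl (forall_congr' fun i =>
    forall_congr' fun hi => ?_))) Iff.rfl
  rw [h1 i hi.le]

end

/-- The product law. -/
theorem prod_law {S S' : Type} [Fintype S] [Fintype S'] {μ : S → ℝ} {ν : S' → ℝ} (hμ : IsLaw μ)
    (hν : IsLaw ν) : IsLaw (fun t : S × S' => μ t.1 * ν t.2) := by
  refine ⟨fun t => mul_nonneg (hμ.nonneg _) (hν.nonneg _), ?_⟩
  rw [Fintype.sum_prod_type]
  simp only [← Finset.mul_sum, hν.sum_one, mul_one]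
  exact hμ.sum_one

theorem Pr_fst {S S' : Type} [Fintype S] [Fintype S'] {μ : S → ℝ} {ν : S' → ℝ}
    (hν : IsLaw ν) (A : Set S) : Pr (fun t : S × S' => μ t.1 * ν t.2) {t | t.1 ∈ A} = Pr μ A := by
  classical
  rw [Pool.KAF.Pr_eq, Pool.KAF.Pr_eq, Fintype.sum_prod_type]
  refine Finset.sum_congr rfl fun s _ => ?_
  by_cases h : s ∈ A
  · simp only [Set.mem_ofPred_eq, h, if_true]
    rw [← Finset.mul_sum, hν.sum_one, mul_one]
  · simp only [Set.mem_ofPred_eq, h, if_false, sum_const_zero]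

theorem Pr_snd {S S' : Type} [Fintype S] [Fintype S'] {μ : S → ℝ} {ν : S' → ℝ}
    (hμ : IsLaw μ) (A : Set S') : Pr (fun t : S × S' => μ t.1 * ν t.2) {t | t.2 ∈ A} = Pr ν A := by
  classical
  rw [Pool.KAF.Pr_eq, Pool.KAF.Pr_eq, Fintype.sum_prod_type, Finset.sum_comm]
  refine Finset.sum_congr rfl fun s _ => ?_
  by_cases h : s ∈ A
  · simp only [Set.mem_ofPred_eq, h, if_true]
    rw [← Finset.sum_mul, hμ.sum_one, one_mul]
  · simp only [Set.mem_ofPred_eq, h, if_false, sum_const_zero]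

/-- A covector vanishing on a subspace. -/
theorem exists_unit_far {c : ℕ} (V : Submodule ℝ (Fin c → ℝ)) (hV : Module.finrank ℝ V < c) :
    ∃ n : Fin c → ℝ, (∀ i, |n i| ≤ 1) ∧ (∃ i, |n i| = 1) ∧
      ∀ v, |∑ i, n i * v i| ≤ c * dV V v := by
  classical
  have hlt : V < ⊤ := by
    rw [lt_top_iff_ne_top]
    rintro rfl
    rw [finrank_top, Module.finrank_fin_fun] at hV
    exact lt_irrefl _ hV
  obtain ⟨φ, hφ0, hφ⟩ := Submodule.exists_dual_map_eq_bot_of_lt_top hlt inferInstance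
  have hφV : ∀ w ∈ V, φ w = 0 := by
    intro w hw
    have h1 : φ w ∈ V.map φ := Submodule.mem_map_of_mem hw
    rw [hφ] at h1
    exact (Submodule.mem_bot ℝ).1 h1
  set a : Fin c → ℝ := fun i => φ (Pi.single i 1) with ha
  have hφa : ∀ v : Fin c → ℝ, φ v = ∑ i, a i * v i := by
    intro v
    have h1 : v = ∑ i, v i • (Pi.single i (1 : ℝ) : Fin c → ℝ) := by
      funext k
      rw [Finset.sum_apply]
      simp [Pi.single_apply]
    conv_lhs => rw [h1]
    rw [map_sum]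
    refine Finset.sum_congr rfl fun i _ => ?_
    rw [map_smul, smul_eq_mul, mul_comm]
  have hane : ∃ i, a i ≠ 0 := by
    by_contra hcon
    push Not at hcon
    apply hφ0
    refine LinearMap.ext fun v => ?_
    rw [hφa]
    simp [hcon]
  obtain ⟨i₁, hi₁⟩ := hane
  have : Nonempty (Fin c) := ⟨i₁⟩
  obtain ⟨i₀, hi₀⟩ := Finite.exists_max fun i => |a i|
  have hm : 0 < |a i₀| := lt_of_lt_of_le (abs_pos.2 hi₁) (hi₀ i₁)
  have hcp : (0 : ℝ) < c := by
    have : 0 < c := Fin.pos i₁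
    exact_mod_cast this
  refine ⟨fun i => a i / |a i₀|, (fun i => by
    rw [abs_div, abs_abs, div_le_one hm]
    exact hi₀ i), ⟨i₀, by rw [abs_div, abs_abs, div_self hm.ne']⟩, fun v => ?_⟩
  have h2 : |∑ i, a i / |a i₀| * v i| / c ≤ dV V v := by
    refine dV_lower V v (fun v => ∑ i, a i / |a i₀| * v i) hcp fun w hw => ?_
    have h3 : ∑ i, a i / |a i₀| * v i = ∑ i, a i / |a i₀| * (v - w) i := by
      have h4 : ∑ i, a i / |a i₀| * w i = 0 := by
        have h5 := hφV w hw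
        rw [hφa] at h5
        have h6 : ∑ i, a i / |a i₀| * w i = (∑ i, a i * w i) / |a i₀| := by
          rw [Finset.sum_div]
          refine Finset.sum_congr rfl fun i _ => ?_
          ring
        rw [h6, h5, zero_div]
      simp only [Pi.sub_apply, mul_sub, Finset.sum_sub_distrib]
      rw [h4, sub_zero]
    rw [h3]
    calc |∑ i, a i / |a i₀| * (v - w) i| ≤ ∑ i, |a i / |a i₀| * (v - w) i| :=
          Finset.abs_sum_le_sum_abs _ _
      _ ≤ ∑ _i : Fin c, ‖v - w‖ := by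
          refine Finset.sum_le_sum fun i _ => ?_
          rw [abs_mul]
          have e1 : abs (a i / |a i₀|) ≤ 1 := by
            rw [abs_div, abs_abs, div_le_one hm]
            exact hi₀ i
          have e2 := norm_le_pi_norm (v - w) i
          rw [Real.norm_eq_abs] at e2
          calc abs (a i / |a i₀|) * |(v - w) i| ≤ 1 * ‖v - w‖ :=
                mul_le_mul e1 e2 (abs_nonneg _) zero_le_one
            _ = _ := one_mul _
      _ = c * ‖v - w‖ := by
          rw [sum_const, Finset.card_univ, Fintype.card_fin, nsmul_eq_mul]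
  rw [div_le_iff₀ hcp] at h2
  rw [mul_comm]
  exact h2

/-- The coordinates are determined by the basis. -/
theorem zc_unique {c k : ℕ} {M M₂ : Fin c → Fin c → ℝ} (hM : ZOK k M) (z : Fin c → Fin c → ℝ)
    (h : ∀ j, zc M (z j) = Pi.single j 1) (h₂ : ∀ j, zc M₂ (z j) = Pi.single j 1)
    (v : Fin c → ℝ) : zc M₂ v = zc M v := by
  obtain ⟨-, M', -, h3, -⟩ := hM
  have hlin : ∀ (A : Fin c → Fin c → ℝ) (β : Fin c → ℝ) (y : Fin c → Fin c → ℝ),
      zc A (∑ j, β j • y j) = ∑ j, β j • zc A (y j) := by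
    intro A β y
    simp only [zc_eq_mulVec]
    rw [← Matrix.mulVecLin_apply, map_sum]
    refine Finset.sum_congr rfl fun j _ => ?_
    rw [map_smul, Matrix.mulVecLin_apply]
  have hz : ∀ j, zc M' (Pi.single j 1) = z j := fun j => by rw [← h j]; exact h3 _
  have hsum : ∀ β : Fin c → ℝ, β = ∑ j, β j • (Pi.single j (1 : ℝ) : Fin c → ℝ) := by
    intro β
    funext k
    rw [Finset.sum_apply]
    simp [Pi.single_apply]
  have hv : v = ∑ j, zc M v j • z j := by
    have h4 := h3 v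
    conv_lhs => rw [← h4, hsum (zc M v), hlin]
    simp only [hz]
  have h5 : zc M₂ v = ∑ j, zc M v j • zc M₂ (z j) := by
    conv_lhs => rw [hv]
    exact hlin M₂ _ _
  rw [h5]
  simp only [h₂]
  exact (hsum _).symm

end Pool.OCM.Bas
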