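import Pool.Agent.H66.OCM.Tri
import Pool.Agent.H98.OCM.Defs

/-!
Triangular bases of `ℝ ^ c`: coordinates.
-/

set_option autoImplicit false

namespace Pool.OCM.Bas

open Finset Real Pool.OCM

section

variable {c : ℕ}

/-- The constant of the thresholds. -/
def L0 (c : ℕ) : ℕ := (c + 3) ^ 2

/-- The constant of the inverse matrix. -/
def C0 (c : ℕ) : ℕ := (c + 1) ^ 2 * (c + 3) ^ 2 + c

theorem flg_top (z : ℕ → Fin c → ℝ) (h : ∀ j < c, 0 < dV (flg z j) (z j)) : flg z c = ⊤ := by
  have h1 : ∀ j ≤ c, j ≤ Module.finrank ℝ (flg z j) := by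
    intro j
    induction j with
    | zero => intro _; exact Nat.zero_le _
    | succ j ih =>
      intro hj
      have h2 := ih (by omega)
      have h3 : flg z j < flg z (j + 1) := by
        refine lt_of_le_of_ne (flg_mono z (Nat.le_succ j)) fun h4 => ?_
        have h5 := h j (by omega)
        have h6 : z j ∈ flg z (j + 1) := Submodule.subset_span ⟨j, Nat.lt_succ_self j, rfl⟩
        rw [← h4] at h6
        have h7 : dV (flg z j) (z j) = 0 := by
          unfold dV
          rw [(Submodule.Quotient.mk_eq_zero _).2 h6, norm_zero]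
        linarith only [h5, h7]
      have h4 := Submodule.finrank_lt_finrank_of_lt h3
      omega
  refine Submodule.eq_top_of_finrank_eq (le_antisymm (flg_finrank z c |>.trans (by simp)) ?_)
  rw [Module.finrank_fin_fun]
  exact h1 c le_rfl

/-- Coordinates with bounds. -/
theorem coords (z : ℕ → Fin c → ℝ) (G : ℝ) (hG : 0 ≤ G) (r : ℕ) (hr : r ≤ c)
    (hD : ∀ j < c, 0 < dV (flg z j) (z j))
    (hz : ∀ i j, r ≤ i → i < j → j < c → dV (flg z i) (z j) ≤ G * dV (flg z i) (z i))
    (v : Fin c → ℝ) (a : ℝ) (ha : 0 ≤ a)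
    (hv : ∀ j, r ≤ j → j < c → dV (flg z j) v ≤ a * dV (flg z j) (z j)) :
    ∃ α : ℕ → ℝ, v - ∑ j ∈ Finset.Ico r c, α j • z j ∈ flg z r ∧
      ∀ j, r ≤ j → j < c → |α j| ≤ a * (1 + G) ^ c := by
  have hc : r + (c - r) = c := by omega
  obtain ⟨α, h1, h2⟩ := elim z G hG r (c - r) (fun j _ h2 => hD j (by omega))
    (fun i j h1 h2 h3 => hz i j h1 h2 (by omega)) v a ha
    (by rw [hc, flg_top z hD]; exact Submodule.mem_top)
    (fun j h1 h2 => hv j h1 (by omega))
  rw [hc] at h1 h2
  refine ⟨α, h1, fun j h3 h4 => (h2 j h3 h4).trans ?_⟩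
  exact mul_le_mul_of_nonneg_left (pow_le_pow_right₀ (by linarith only [hG]) (by omega)) ha

theorem zc_eq_mulVec (M : Fin c → Fin c → ℝ) (v : Fin c → ℝ) :
    zc M v = Matrix.mulVec (Matrix.of M) v := rfl

theorem zc_cols (z : ℕ → Fin c → ℝ) (v : Fin c → ℝ) :
    zc (fun i j : Fin c => z j i) v = ∑ j : Fin c, v j • z j := by
  funext i
  unfold zc
  rw [Finset.sum_apply]
  refine Finset.sum_congr rfl fun j _ => ?_
  rw [Pi.smul_apply, smul_eq_mul, mul_comm]

/-- **The basis.** -/
theorem basis_good (z : ℕ → Fin c → ℝ) (r : ℕ) (hr : r ≤ c) (B : ℕ)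
    (hb : ∀ j < c, ‖z j‖ ≤ 2 ^ B)
    (hf : ∀ j < r, ((2 : ℝ) ^ ((j + 1) * (L0 c * (B + 1))))⁻¹ ≤ dV (flg z j) (z j))
    (hf2 : ∀ i j, i < j → j < r → dV (flg z i) (z j) ≤ dV (flg z i) (z i))
    (hg : ∀ j, r ≤ j → j < c → ((2 : ℝ) ^ (B + c))⁻¹ ≤ dV (flg z j) (z j)) :
    ∃ M : Fin c → Fin c → ℝ, ZOK (C0 c * (B + 1)) M ∧
      (∀ i j : Fin c, zc M (z j) i = if i = j then 1 else 0) ∧
      ∀ v : Fin c → ℝ, (∀ j < r, dV (flg z j) v ≤ dV (flg z j) (z j)) →
        (r < c → dV (flg z r) v ≤ ((2 : ℝ) ^ ((r + 1) * (L0 c * (B + 1))))⁻¹) →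
        ∀ i, |zc M v i| ≤ 2 ^ c := by
  classical
  set L : ℕ := L0 c * (B + 1) with hL
  have two1 : (1 : ℝ) ≤ 2 := by norm_num
  have hLc : B + c ≤ L := by
    rw [hL]
    unfold L0
    calc B + c ≤ (c + 3) * (B + 1) := by nlinarith only [Nat.zero_le (c * B)]
      _ ≤ (c + 3) ^ 2 * (B + 1) := Nat.mul_le_mul_right _ (by nlinarith only)
  have hD : ∀ j < c, ((2 : ℝ) ^ (c * L + L))⁻¹ ≤ dV (flg z j) (z j) := by
    intro j hj
    by_cases h1 : j < r
    · refine le_trans (inv_anti₀ (by positivity) (pow_le_pow_right₀ two1 ?_)) (hf j h1)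
      have : j * L ≤ c * L := Nat.mul_le_mul_right L (by omega)
      calc (j + 1) * L = j * L + L := by ring
        _ ≤ c * L + L := by omega
    · refine le_trans (inv_anti₀ (by positivity) (pow_le_pow_right₀ two1 ?_))
        (hg j (by omega) hj)
      exact hLc.trans (Nat.le_add_left _ _)
  have hD0 : ∀ j < c, 0 < dV (flg z j) (z j) := fun j hj => lt_of_lt_of_le (by positivity) (hD j hj)
  -- general vectors
  set T : ℝ := 2 ^ (c * L + L) with hT
  have hT0 : 0 < T := by positivity
  have hT1 : 1 ≤ T := one_le_pow₀ two1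
  have hgen : ∀ v : Fin c → ℝ, ∃ α : Fin c → ℝ, v = ∑ j : Fin c, α j • z j ∧
      ∀ j, |α j| ≤ ‖v‖ * T * (1 + 2 ^ B * T) ^ c := by
    intro v
    obtain ⟨α, h1, h2⟩ := coords z (2 ^ B * T) (by positivity) 0 (Nat.zero_le c) hD0 (by
      intro i j _ h4 h5
      have h6 := (dV_le (flg z i) (z j)).trans (hb j h5)
      have h7 := hD i (by omega)
      have h8 : 1 ≤ T * dV (flg z i) (z i) := by
        rw [inv_le_iff_one_le_mul₀ hT0] at h7
        rwa [mul_comm]
      calc dV (flg z i) (z j) ≤ 2 ^ B * 1 := by rw [mul_one]; exact h6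
        _ ≤ 2 ^ B * (T * dV (flg z i) (z i)) := mul_le_mul_of_nonneg_left h8 (by positivity)
        _ = _ := by ring) v (‖v‖ * T) (by positivity) (by
      intro j _ h4
      have h6 := dV_le (flg z j) v
      have h7 := hD j h4
      have h8 : 1 ≤ T * dV (flg z j) (z j) := by
        rw [inv_le_iff_one_le_mul₀ hT0] at h7
        rwa [mul_comm]
      calc dV (flg z j) v ≤ ‖v‖ * 1 := by rw [mul_one]; exact h6
        _ ≤ ‖v‖ * (T * dV (flg z j) (z j)) := mul_le_mul_of_nonneg_left h8 (norm_nonneg v)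
        _ = _ := by ring)
    rw [flg_zero, Submodule.mem_bot, sub_eq_zero, Nat.Ico_zero_eq_range,
      ← Fin.sum_univ_eq_sum_range (fun j => α j • z j) c] at h1
    exact ⟨fun j => α j, h1, fun j => h2 j (Nat.zero_le _) j.2⟩
  -- the matrices
  choose α hα hαb using fun j : Fin c => hgen (Pi.single j (1 : ℝ))
  exact by
   set M : Fin c → Fin c → ℝ := fun i j => α j i with hM
   set M' : Fin c → Fin c → ℝ := fun i j => z j i with hM'
   have hMM' : ∀ v, zc M' (zc M v) = v := by
     intro v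
     rw [hM', zc_cols]
     have h1 : ∀ i : Fin c, zc M v i • z i = ∑ j : Fin c, v j • (α j i • z i) := by
       intro i
       unfold zc
       rw [Finset.sum_smul]
       refine Finset.sum_congr rfl fun j _ => ?_
       rw [smul_smul, mul_comm]
     rw [Finset.sum_congr rfl fun i _ => h1 i, Finset.sum_comm]
     have h2 : ∀ j : Fin c, ∑ i : Fin c, v j • (α j i • z i) = v j • Pi.single j (1 : ℝ) := by
       intro j
       rw [← Finset.smul_sum, ← hα j]
     rw [Finset.sum_congr rfl fun j _ => h2 j]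
     funext i
     rw [Finset.sum_apply]
     simp [Pi.single_apply]
   have hmat : Matrix.of M' * Matrix.of M = 1 := by
     refine Matrix.ext_iff_mulVec.2 fun v => ?_
     rw [← Matrix.mulVec_mulVec, Matrix.one_mulVec]
     exact hMM' v
   have hmat' : Matrix.of M * Matrix.of M' = 1 := mul_eq_one_comm.1 hmat
   have hM'M : ∀ v, zc M (zc M' v) = v := by
     intro v
     have h1 : Matrix.mulVec (Matrix.of M * Matrix.of M') v = v := by
       rw [hmat', Matrix.one_mulVec]
     rw [← Matrix.mulVec_mulVec] at h1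
     exact h1
   exact by
    have hkey : ∀ β : Fin c → ℝ, zc M (∑ j : Fin c, β j • z j) = β := by
      intro β
      rw [← zc_cols]
      exact hM'M β
    have hbig : ∀ j i : Fin c, |α j i| ≤ 2 ^ (C0 c * (B + 1)) := by
      intro j i
      refine (hαb j i).trans ?_
      have h1 : ‖(Pi.single j (1 : ℝ) : Fin c → ℝ)‖ ≤ 1 := by
        rw [pi_norm_le_iff_of_nonneg zero_le_one]
        intro k
        by_cases h : k = j
        · subst h; simp
        · rw [Pi.single_eq_of_ne h]; simp
      have h2 : 1 + 2 ^ B * T ≤ (2 : ℝ) ^ (B + (c * L + L) + 1) := by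
        have : (1 : ℝ) ≤ 2 ^ B * T := by
          have : (1 : ℝ) ≤ 2 ^ B := one_le_pow₀ two1
          nlinarith only [hT1, hT0, this]
        calc 1 + 2 ^ B * T ≤ 2 ^ B * T + 2 ^ B * T := by linarith only [this]
          _ = 2 ^ (B + (c * L + L) + 1) := by rw [hT]; ring
      calc ‖(Pi.single j (1 : ℝ) : Fin c → ℝ)‖ * T * (1 + 2 ^ B * T) ^ c
          ≤ 1 * T * ((2 : ℝ) ^ (B + (c * L + L) + 1)) ^ c := by
            gcongr
        _ = 2 ^ ((c * L + L) + (B + (c * L + L) + 1) * c) := by
            rw [one_mul, hT, ← pow_mul, ← pow_add]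
        _ ≤ 2 ^ (C0 c * (B + 1)) := by
            refine pow_le_pow_right₀ two1 (le_of_eq ?_)
            rw [hL]
            unfold C0 L0
            ring
    have hB2 : ∀ i j : Fin c, |z j i| ≤ 2 ^ (C0 c * (B + 1)) := by
      intro i j
      have h1 := norm_le_pi_norm (z j) i
      rw [Real.norm_eq_abs] at h1
      refine h1.trans ((hb j j.2).trans (pow_le_pow_right₀ two1 ?_))
      unfold C0
      have : 1 ≤ (c + 1) ^ 2 * (c + 3) ^ 2 := Nat.one_le_iff_ne_zero.2 (by positivity)
      nlinarith only [this]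
    exact by
     refine ⟨M, ⟨fun i j => hbig j i, M', fun i j => hB2 i j, hMM', hM'M⟩, ?_, ?_⟩
     · intro i j
       have h1 := hkey (Pi.single j 1)
       have h2 : ∑ k : Fin c, (Pi.single j (1 : ℝ) : Fin c → ℝ) k • z k = z j := by
         rw [Finset.sum_eq_single j]
         · simp
         · intro k _ hk
           rw [Pi.single_eq_of_ne hk, zero_smul]
         · intro h; exact absurd (mem_univ _) h
       rw [h2] at h1
       rw [h1, Pi.single_apply]
     · intro v hv1 hv2
       -- the coarse part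
       set δ : ℝ := 2 ^ (B + c) with hδ
       have hδ0 : 0 < δ := by positivity
       set τ : ℝ := ((2 : ℝ) ^ ((r + 1) * L))⁻¹ with hτ
       have hτ0 : 0 < τ := by positivity
       obtain ⟨β, hβ1, hβ2⟩ := coords z (2 ^ B * δ) (by positivity) r hr hD0 (by
         intro i j h3 h4 h5
         have h6 := (dV_le (flg z i) (z j)).trans (hb j h5)
         have h7 := hg i h3 (by omega)
         have h8 : 1 ≤ δ * dV (flg z i) (z i) := by
           rw [inv_le_iff_one_le_mul₀ hδ0] at h7
           rwa [mul_comm]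
         calc dV (flg z i) (z j) ≤ 2 ^ B * 1 := by rw [mul_one]; exact h6
           _ ≤ 2 ^ B * (δ * dV (flg z i) (z i)) := mul_le_mul_of_nonneg_left h8 (by positivity)
           _ = _ := by ring) v (τ * δ) (by positivity) (by
         intro j h3 h4
         have h6 := (dV_anti (flg_mono z h3) v).trans (hv2 (by omega))
         have h7 := hg j h3 h4
         have h8 : 1 ≤ δ * dV (flg z j) (z j) := by
           rw [inv_le_iff_one_le_mul₀ hδ0] at h7
           rwa [mul_comm]
         calc dV (flg z j) v ≤ τ * 1 := by rw [mul_one]; exact h6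
           _ ≤ τ * (δ * dV (flg z j) (z j)) := mul_le_mul_of_nonneg_left h8 hτ0.le
           _ = _ := by ring)
       have hsmall : c * (τ * δ * (1 + 2 ^ B * δ) ^ c) * 2 ^ B ≤ ((2 : ℝ) ^ (r * L))⁻¹ := by
         have h2 : 1 + 2 ^ B * δ ≤ (2 : ℝ) ^ (B + (B + c) + 1) := by
           have : (1 : ℝ) ≤ 2 ^ B * δ := by
             have h3 : (1 : ℝ) ≤ 2 ^ B := one_le_pow₀ two1
             have h4 : (1 : ℝ) ≤ δ := one_le_pow₀ two1
             nlinarith only [h4, hδ0, h3]
           calc 1 + 2 ^ B * δ ≤ 2 ^ B * δ + 2 ^ B * δ := by linarith only [this]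
             _ = 2 ^ (B + (B + c) + 1) := by rw [hδ]; ring
         have h3 : (c : ℝ) ≤ 2 ^ c := by exact_mod_cast (Nat.lt_two_pow_self).le
         calc c * (τ * δ * (1 + 2 ^ B * δ) ^ c) * 2 ^ B
             ≤ 2 ^ c * (τ * δ * ((2 : ℝ) ^ (B + (B + c) + 1)) ^ c) * 2 ^ B := by gcongr
           _ = τ * 2 ^ (c + (B + c) + (B + (B + c) + 1) * c + B) := by
               rw [hδ, ← pow_mul, pow_add, pow_add, pow_add, pow_add]
               ring
           _ ≤ τ * 2 ^ L := by
               refine mul_le_mul_of_nonneg_left (pow_le_pow_right₀ two1 ?_) hτ0.le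
               rw [hL]
               unfold L0
               nlinarith only [Nat.zero_le B, Nat.zero_le c, Nat.zero_le (B * c), Nat.zero_le (B * c * c)]
           _ = ((2 : ℝ) ^ (r * L))⁻¹ := by
               rw [hτ, show (r + 1) * L = r * L + L by ring, pow_add, mul_inv, mul_assoc,
                 inv_mul_cancel₀ (by positivity), mul_one]
       have hβ1' : ∀ j, r ≤ j → j < c → |β j| ≤ 1 := by
         intro j h3 h4
         have hc1 : (1 : ℝ) ≤ c := by exact_mod_cast (by omega : 1 ≤ c)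
         have h5 : (1 : ℝ) ≤ 2 ^ B := one_le_pow₀ two1
         have h6 : 0 ≤ τ * δ * (1 + 2 ^ B * δ) ^ c := by positivity
         have h7 : ((2 : ℝ) ^ (r * L))⁻¹ ≤ 1 := inv_le_one_of_one_le₀ (one_le_pow₀ two1)
         have h8 : τ * δ * (1 + 2 ^ B * δ) ^ c ≤ c * (τ * δ * (1 + 2 ^ B * δ) ^ c) * 2 ^ B := by
           calc τ * δ * (1 + 2 ^ B * δ) ^ c = 1 * (τ * δ * (1 + 2 ^ B * δ) ^ c) * 1 := by ring
             _ ≤ _ := by gcongr
         exact (hβ2 j h3 h4).trans (h8.trans (hsmall.trans h7))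
       set w : Fin c → ℝ := v - ∑ j ∈ Finset.Ico r c, β j • z j with hw
       -- the fine part
       have hws : ‖∑ j ∈ Finset.Ico r c, β j • z j‖ ≤ ((2 : ℝ) ^ (r * L))⁻¹ := by
         refine (norm_sum_le _ _).trans (le_trans ?_ hsmall)
         calc ∑ j ∈ Finset.Ico r c, ‖β j • z j‖
             ≤ ∑ _j ∈ Finset.Ico r c, (τ * δ * (1 + 2 ^ B * δ) ^ c) * 2 ^ B := by
               refine Finset.sum_le_sum fun j hj => ?_
               rw [Finset.mem_Ico] at hj
               rw [norm_smul, Real.norm_eq_abs]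
               exact mul_le_mul (hβ2 j hj.1 hj.2) (hb j hj.2) (norm_nonneg _) (by positivity)
           _ ≤ c * (τ * δ * (1 + 2 ^ B * δ) ^ c) * 2 ^ B := by
               rw [sum_const, Nat.card_Ico, nsmul_eq_mul, ← mul_assoc]
               have : ((c - r : ℕ) : ℝ) ≤ c := by exact_mod_cast Nat.sub_le c r
               gcongr
       obtain ⟨γ, hγ1, hγ2⟩ := elim z 1 zero_le_one 0 r (fun j _ h2 => hD0 j (by omega))
         (fun i j _ h2 h3 => by rw [one_mul]; exact hf2 i j h2 (by omega)) w 2 (by norm_num)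
         (by rw [zero_add]; exact hβ1) (by
           intro j _ h2
           have h3 : dV (flg z j) w ≤ dV (flg z j) v + ‖∑ j ∈ Finset.Ico r c, β j • z j‖ :=
             (dV_sub _ _ _).trans (by gcongr; exact dV_le _ _)
           have h4 := hv1 j (by omega)
           have h5 : ((2 : ℝ) ^ (r * L))⁻¹ ≤ dV (flg z j) (z j) := by
             refine le_trans (inv_anti₀ (by positivity) (pow_le_pow_right₀ two1 ?_)) (hf j (by omega))
             exact Nat.mul_le_mul_right L (by omega)
           linarith only [hws, h3, h4, h5])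
       rw [zero_add] at hγ1 hγ2
       rw [flg_zero, Submodule.mem_bot, sub_eq_zero, Nat.Ico_zero_eq_range] at hγ1
       set κ : ℕ → ℝ := fun j => if j < r then γ j else β j with hκ
       have hvk : v = ∑ j : Fin c, κ j • z j := by
         rw [Fin.sum_univ_eq_sum_range (fun j => κ j • z j) c]
         have h1 : v = w + ∑ j ∈ Finset.Ico r c, β j • z j := by rw [hw]; abel
         rw [h1, hγ1, ← Finset.sum_range_add_sum_Ico _ hr]
         congr 1
         · refine Finset.sum_congr rfl fun j hj => ?_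
           rw [mem_range] at hj
           rw [hκ]
           simp only [if_pos hj]
         · refine Finset.sum_congr rfl fun j hj => ?_
           rw [Finset.mem_Ico] at hj
           rw [hκ]
           simp only [if_neg (not_lt.2 hj.1)]
       intro i
       have h1 : zc M v = fun j : Fin c => κ j := by
         conv_lhs => rw [hvk]
         exact hkey fun j => κ j
       rw [h1]
       show |κ i| ≤ 2 ^ c
       rw [hκ]
       by_cases h2 : (i : ℕ) < r
       · simp only [if_pos h2]
         refine (hγ2 i (Nat.zero_le _) h2).trans ?_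
         rw [show (1 : ℝ) + 1 = 2 by norm_num, ← pow_succ']
         exact pow_le_pow_right₀ two1 (by omega)
       · simp only [if_neg h2]
         exact (hβ1' i (not_lt.1 h2) i.2).trans (one_le_pow₀ two1)

end

end Pool.OCM.Bas
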