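import Mathlib

/-!
Triangular bases: distances to the members of a flag and coordinates.
-/

set_option autoImplicit false

namespace Pool.OCM.Bas

open Finset Real

section

variable {E : Type} [NormedAddCommGroup E] [NormedSpace ℝ E]

/-- The distance of a vector to a subspace. -/
noncomputable def dV (V : Submodule ℝ E) (v : E) : ℝ := ‖(Submodule.Quotient.mk v : E ⧸ V)‖

theorem dV_nonneg (V : Submodule ℝ E) (v : E) : 0 ≤ dV V v := norm_nonneg _

theorem dV_smul (V : Submodule ℝ E) (a : ℝ) (v : E) : dV V (a • v) = |a| * dV V v := by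
  unfold dV
  rw [Submodule.Quotient.mk_smul, norm_smul, Real.norm_eq_abs]

theorem dV_add (V : Submodule ℝ E) (v w : E) : dV V (v + w) ≤ dV V v + dV V w := by
  unfold dV
  rw [Submodule.Quotient.mk_add]
  exact norm_add_le _ _

theorem dV_sub (V : Submodule ℝ E) (v w : E) : dV V (v - w) ≤ dV V v + dV V w := by
  unfold dV
  rw [Submodule.Quotient.mk_sub]
  exact norm_sub_le _ _

theorem dV_add_mem (V : Submodule ℝ E) (v : E) {w : E} (hw : w ∈ V) : dV V (w + v) = dV V v := by
  unfold dV
  rw [Submodule.Quotient.mk_add, (Submodule.Quotient.mk_eq_zero V).2 hw, zero_add]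

theorem dV_le (V : Submodule ℝ E) (v : E) : dV V v ≤ ‖v‖ := Submodule.Quotient.norm_mk_le V v

theorem dV_infDist (V : Submodule ℝ E) (v : E) : dV V v = Metric.infDist v (V : Set E) :=
  QuotientAddGroup.norm_mk (S := V.toAddSubgroup) v

theorem dV_anti {V W : Submodule ℝ E} (h : V ≤ W) (v : E) : dV W v ≤ dV V v := by
  rw [dV_infDist, dV_infDist]
  exact Metric.infDist_le_infDist_of_subset h ⟨0, V.zero_mem⟩

theorem dV_lower (V : Submodule ℝ E) (v : E) (φ : E → ℝ) {C : ℝ} (hC : 0 < C)
    (hφ : ∀ w ∈ V, |φ v| ≤ C * ‖v - w‖) : |φ v| / C ≤ dV V v := by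
  rw [dV_infDist, Metric.le_infDist ⟨0, V.zero_mem⟩]
  intro w hw
  rw [div_le_iff₀ hC, dist_eq_norm, mul_comm]
  exact hφ w hw

/-- The flag of a sequence. -/
def flg (z : ℕ → E) (j : ℕ) : Submodule ℝ E := Submodule.span ℝ (z '' {i | i < j})

theorem flg_succ (z : ℕ → E) (j : ℕ) : flg z (j + 1) = Submodule.span ℝ {z j} ⊔ flg z j := by
  unfold flg
  have : {i | i < j + 1} = insert j {i | i < j} := by
    ext i
    simp only [Set.mem_ofPred_eq, Set.mem_insert_iff]
    omega
  rw [this, Set.image_insert_eq, Submodule.span_insert]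

theorem flg_mono (z : ℕ → E) {i j : ℕ} (h : i ≤ j) : flg z i ≤ flg z j := by
  unfold flg
  refine Submodule.span_mono (Set.image_mono ?_)
  intro k hk
  exact lt_of_lt_of_le hk h

theorem flg_congr {z z' : ℕ → E} {j : ℕ} (h : ∀ i < j, z i = z' i) : flg z j = flg z' j := by
  unfold flg
  congr 1
  exact Set.image_congr h

theorem flg_zero (z : ℕ → E) : flg z 0 = ⊥ := by
  unfold flg
  simp

theorem flg_finrank (z : ℕ → E) (j : ℕ) : Module.finrank ℝ (flg z j) ≤ j := by
  classical
  have h1 : flg z j = Submodule.span ℝ (((Finset.range j).image z : Finset E) : Set E) := by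
    unfold flg
    congr 1
    ext v
    simp
  rw [h1]
  refine (finrank_span_finset_le_card _).trans ?_
  exact (Finset.card_image_le).trans (by rw [card_range])

/-- **Elimination.** -/
theorem elim (z : ℕ → E) (G : ℝ) (hG : 0 ≤ G) (r : ℕ) : ∀ n : ℕ,
    (∀ j, r ≤ j → j < r + n → 0 < dV (flg z j) (z j)) →
    (∀ i j, r ≤ i → i < j → j < r + n → dV (flg z i) (z j) ≤ G * dV (flg z i) (z i)) →
    ∀ (v : E) (a : ℝ), 0 ≤ a → v ∈ flg z (r + n) →
      (∀ j, r ≤ j → j < r + n → dV (flg z j) v ≤ a * dV (flg z j) (z j)) →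
      ∃ α : ℕ → ℝ, v - ∑ j ∈ Finset.Ico r (r + n), α j • z j ∈ flg z r ∧
        ∀ j, r ≤ j → j < r + n → |α j| ≤ a * (1 + G) ^ (r + n - 1 - j) := by
  intro n
  induction n with
  | zero =>
    intro _ _ v a _ hv _
    refine ⟨fun _ => 0, ?_, fun j h1 h2 => by omega⟩
    simpa using hv
  | succ n ih =>
    intro hD hz v a ha hv hva
    rw [show r + (n + 1) = r + n + 1 by ring, flg_succ, Submodule.mem_sup] at hv
    obtain ⟨y, hy, w, hw, rfl⟩ := hv
    obtain ⟨b, rfl⟩ := Submodule.mem_span_singleton.1 hy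
    have h1 : |b| ≤ a := by
      have h2 := hva (r + n) (by omega) (by omega)
      rw [add_comm (b • z (r + n)) w, dV_add_mem _ _ hw, dV_smul] at h2
      exact le_of_mul_le_mul_right h2 (hD (r + n) (by omega) (by omega))
    obtain ⟨α, hα, hαb⟩ := ih (fun j h1 h2 => hD j h1 (by omega))
      (fun i j h1 h2 h3 => hz i j h1 h2 (by omega)) w (a * (1 + G)) (by positivity) hw (by
        intro j h2 h3
        have h4 := hva j h2 (by omega)
        have h5 := dV_sub (flg z j) (b • z (r + n) + w) (b • z (r + n))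
        rw [add_sub_cancel_left, dV_smul] at h5
        have h6 := hz j (r + n) h2 h3 (by omega)
        have h7 : |b| * dV (flg z j) (z (r + n)) ≤ a * (G * dV (flg z j) (z j)) :=
          mul_le_mul h1 h6 (dV_nonneg _ _) ha
        linarith)
    refine ⟨fun j => if j = r + n then b else α j, ?_, ?_⟩
    · rw [show r + (n + 1) = r + n + 1 by ring, Finset.sum_Ico_succ_top (by omega)]
      have h2 : ∑ j ∈ Finset.Ico r (r + n), (fun j => if j = r + n then b else α j) j • z j =
          ∑ j ∈ Finset.Ico r (r + n), α j • z j := by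
        refine Finset.sum_congr rfl fun j hj => ?_
        rw [Finset.mem_Ico] at hj
        show (if j = r + n then b else α j) • z j = α j • z j
        rw [if_neg (by omega)]
      have h2' : (fun j => if j = r + n then b else α j) (r + n) = b := if_pos rfl
      rw [h2, h2']
      have h3 : b • z (r + n) + w - (∑ j ∈ Finset.Ico r (r + n), α j • z j + b • z (r + n)) =
          w - ∑ j ∈ Finset.Ico r (r + n), α j • z j := by abel
      rw [h3]
      exact hα
    · intro j h2 h3
      by_cases h4 : j = r + n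
      · simp only [if_pos h4]
        refine h1.trans (le_mul_of_one_le_right ha (one_le_pow₀ (by linarith)))
      · simp only [if_neg h4]
        refine (hαb j h2 (by omega)).trans (le_of_eq ?_)
        rw [show r + (n + 1) - 1 - j = (r + n - 1 - j) + 1 by omega, pow_succ]
        ring

end

end Pool.OCM.Bas
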